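import Mathlib
import Pool.Agent.H66.EntSub

set_option autoImplicit false

open Pool.Agent.H27.AlgEnt

universe u v w w'

/-- Both algebraic entropies can only grow when the action is restricted to a subgroup. -/
theorem Pool.Agent.Results.MP_df8e9b_al.Monotone.result
    {G : Type u} [Group G] {A : Type v} [AddCommGroup A] [DistribMulAction G A]
    (H : Subgroup G)
    {ι : Type w} (l : Filter ι) (F : ι → Finset G) (hF : IsFolner l F)
    {κ : Type w'} (m : Filter κ) (E : κ → Finset H) (hE : IsFolner m E) :
    hSup A l F ≤ hInf A m E ∧ entSup A l F ≤ entInf A m E :=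
  Pool.Agent.H66.EntSub.main hF H hE
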